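import Pool.Agent.TH935.TG3
import Pool.Agent.V11290.FD.Fam3
import Pool.Agent.V11290.FD.Win

/-!
# The asymptotic formula for prime tuples with shifts near `t θ + s` at the elements of arbitrary sets, for almost
every `θ` with respect to arbitrary products of measures with a Fourier transform of polynomial decay

Let `μ 1, ..., μ k` be ANY compactly supported probability measures on the line whose Fourier transforms decay like some
power, with an arbitrarily small exponent `σ > 0`. (Such measures live on many sets of Lebesgue measure zero and of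
arbitrarily small dimension: on the badly approximable numbers with bounded partial quotients (Kaufman), on the sets of
`τ`-well approximable numbers (Kaufman), on limit sets of convex cocompact Fuchsian groups (Bourgain, Dyatlov), on random
Salem sets, ...). Let arbitrary sets of arguments be given, at most `log ^ T (t j)` of them for every `j`. For almost every
vector `θ` with respect to the product measure the expected formula for the number of the arguments `n` from these sets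
with prime values `n + a 1, ..., n + a k` holds for ALL integer vectors `a` near `t j θ + s j`, in all windows.

Proof: the law of a random rounding of `t θ` is approximated by a finite family of integers (with multiplicities); its
additive energy of order `p ≥ 1 / σ` is nearly minimal since the characteristic function of the rounding is small away
from the integers (a Fourier series with the coefficients `sinc²`). The theorem of the library TH935.TG on products of
thin families (starting files) is applied to these families, the result is carried back to the measure, and then the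
lemma of Borel and Cantelli is applied.
-/

set_option autoImplicit false

namespace Pool.Agent.Results.MP_e87c7d_nt.FourierDecay

open Finset MeasureTheory

open Classical in
/-- The number of `n ∈ M` with `y₁ < n ≤ y₂` such that `|n + a i|` is prime for every `i`. -/
noncomputable def primeCount {k : ℕ} (a : Fin k → ℤ) (M : Set ℕ) (y₁ y₂ : ℕ) : ℕ :=
  ((Ioc y₁ y₂).filter (fun n : ℕ => n ∈ M ∧ ∀ i, ((n : ℤ) + a i).natAbs.Prime)).card

open Classical in
/-- The number of `n ∈ M` with `y₁ < n ≤ y₂` such that no `n + a i` is divisible by a prime `p ≤ z`. -/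
noncomputable def roughCount {k : ℕ} (a : Fin k → ℤ) (z : ℕ) (M : Set ℕ) (y₁ y₂ : ℕ) : ℕ :=
  ((Ioc y₁ y₂).filter (fun n : ℕ => n ∈ M ∧ ∀ i, ∀ p : ℕ, p.Prime → p ≤ z → ¬ (p : ℤ) ∣ (n : ℤ) + a i)).card

/-- `∏_{p ≤ z} (1 - 1 / p)`, the density of the integers without prime factors `≤ z`. -/
noncomputable def V (z : ℕ) : ℝ := ∏ p ∈ (Icc 1 z).filter Nat.Prime, (1 - 1 / (p : ℝ))

/-- For every one of the sets `𝒩 l` and every window `y₁ < n ≤ y₂` with `y₂ ≤ B N` which contains at least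
`N / log ^ K N` elements `n` of `𝒩 l` such that the numbers `n + a i` have no prime factor `≤ z`, the
proportion of these elements for which all `|n + a i|` are prime is `1 / (V z log N) ^ k`, up to a relative
error of at most `ε`. -/
def Holds (ε : ℝ) (K B N z : ℕ) {k m : ℕ} (𝒩 : Fin m → Set ℕ) (a : Fin k → ℤ) : Prop :=
  ∀ l : Fin m, ∀ y₁ y₂ : ℕ, y₁ ≤ y₂ → y₂ ≤ B * N →
    (N : ℝ) / Real.log N ^ K ≤ roughCount a z (𝒩 l) y₁ y₂ →
    |(primeCount a (𝒩 l) y₁ y₂ : ℝ) - roughCount a z (𝒩 l) y₁ y₂ / (V z * Real.log N) ^ k| ≤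
      ε * (roughCount a z (𝒩 l) y₁ y₂ / (V z * Real.log N) ^ k)

open Pool.Agent.TH935.TG
open Pool.Agent.H373R2.T7 (pz mem_pz Vz)

open Classical in
lemma prime_eq {k : ℕ} (a : Fin k → ℤ) (M : Set ℕ) (Y y₁ y₂ : ℕ) (hY : y₂ ≤ Y) :
    primeCount a M y₁ y₂ = cnM (fun _ => 1) a (win ((Ioc 0 Y).filter (· ∈ M)) y₁ y₂) := by
  unfold primeCount cnM win
  rw [filter_filter, filter_filter]
  congr 1
  ext n
  rw [mem_filter, mem_filter, mem_Ioc, mem_Ioc]
  simp only [one_mul]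
  constructor
  · rintro ⟨⟨h1, h2⟩, h3, h4⟩
    exact ⟨⟨by omega, by omega⟩, h3, ⟨h1, h2⟩, h4⟩
  · rintro ⟨_, h3, ⟨h1, h2⟩, h4⟩
    exact ⟨⟨h1, h2⟩, h3, h4⟩

open Classical in
lemma rough_eq {k : ℕ} (a : Fin k → ℤ) (z : ℕ) (M : Set ℕ) (Y y₁ y₂ : ℕ) (hY : y₂ ≤ Y) :
    roughCount a z M y₁ y₂ = rgM (fun _ => 1) a z (win ((Ioc 0 Y).filter (· ∈ M)) y₁ y₂) := by
  unfold roughCount rgM win
  rw [filter_filter, filter_filter]
  congr 1
  ext n
  rw [mem_filter, mem_filter, mem_Ioc, mem_Ioc]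
  simp only [one_mul]
  constructor
  · rintro ⟨⟨h1, h2⟩, h3, h4⟩
    exact ⟨⟨by omega, by omega⟩, h3, ⟨h1, h2⟩, fun i p hp => h4 i p (mem_pz.1 hp).2 (mem_pz.1 hp).1⟩
  · rintro ⟨_, h3, ⟨h1, h2⟩, h4⟩
    exact ⟨⟨h1, h2⟩, h3, fun i p hp1 hp2 => h4 i p (mem_pz.2 ⟨hp2, hp1⟩)⟩

lemma V_eq (z : ℕ) : V z = Vz z := rfl

open Classical in
lemma holds_of (ε : ℝ) (K B N z : ℕ) {k m : ℕ} (𝒩 : Fin m → Set ℕ) (a : Fin k → ℤ)
    (h : HB ε K 0 B N z (fun l : Fin m => (Ioc 0 (B * N)).filter (· ∈ 𝒩 l)) a) : Holds ε K B N z 𝒩 a := by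
  intro l y₁ y₂ h12 hy2 hR
  have h1 := h (fun _ => 1) (fun _ => one_ne_zero) (fun _ => by simp) l y₁ y₂ h12 hy2
  rw [rough_eq a z (𝒩 l) (B * N) y₁ y₂ hy2] at hR ⊢
  rw [prime_eq a (𝒩 l) (B * N) y₁ y₂ hy2, V_eq]
  exact h1 hR


lemma rough_nn {k : ℕ} (a : Fin k → ℤ) (z : ℕ) (M : Set ℕ) (y₁ y₂ : ℕ) (L : ℝ) (hL : 0 ≤ L) :
    0 ≤ (roughCount a z M y₁ y₂ : ℝ) / (V z * L) ^ k := by
  have hV : 0 ≤ V z := by
    unfold V
    apply prod_nonneg
    intro p hp
    have hp2 : (2 : ℝ) ≤ p := by exact_mod_cast (mem_filter.1 hp).2.two_le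
    rw [sub_nonneg, div_le_one (by linarith)]
    linarith
  positivity

lemma holds_mono (ε ε' : ℝ) (K K' B B' N z : ℕ) (hL : 1 ≤ Real.log N) (hε : ε ≤ ε') (hK : K' ≤ K) (hB : B' ≤ B)
    {k m : ℕ} (𝒩 : Fin m → Set ℕ) (a : Fin k → ℤ) (h : Holds ε K B N z 𝒩 a) : Holds ε' K' B' N z 𝒩 a := by
  intro l y₁ y₂ h12 hy hR
  refine (h l y₁ y₂ h12 (hy.trans (Nat.mul_le_mul_right _ hB)) ?_).trans ?_
  · refine le_trans ?_ hR
    apply div_le_div_of_nonneg_left (Nat.cast_nonneg _) (by positivity)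
    exact pow_le_pow_right₀ hL hK
  · exact mul_le_mul_of_nonneg_right hε (rough_nn a z (𝒩 l) y₁ y₂ _ (by linarith))

/-- Let `μ 1, ..., μ k` be probability measures on `[-B, B]` with `|μ_i^(ξ)| ≤ C |ξ| ^ (-σ)` for `|ξ| ≥ 1` and some `C` and
`σ > 0`. Let `t j ≥ 2` and `|s j i| ≤ B t j` be real numbers, where `j` ranges over a set `J`, such that the sum of the
`1 / log ^ W (t j)` converges for some `W`, and for every `j` let `m j ≤ log ^ T (t j)` arbitrary sets `𝒩 j l` of positive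
integers be given. Put `N = ⌈t j⌉`. Then for almost every `θ` with respect to the product of the `μ i`, for all `A`, `K`, `B'`
and `ε > 0` there is an `E₀` such that for all `E ≥ E₀` and all but finitely many `j`, with `z = ⌊log ^ E N⌋`: ALL vectors
`a` of integers with `|a i - (t j θ i + s j i)| ≤ log ^ A (t j)` for all `i` satisfy `Holds`: for ALL the sets `𝒩 j l` and ALL
windows `(y₁, y₂]` with `y₂ ≤ B' N`: if `R` is the number of the elements `n` of `𝒩 j l` in the window for which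
`n + a 1, ..., n + a k` have no prime factor `≤ z`, and `R ≥ N / log ^ K N`, then the number of the elements `n` of `𝒩 j l`
in the window for which `|n + a 1|, ..., |n + a k|` are all prime is `(1 + O(ε)) R / (V z log N) ^ k`, where
`V z = ∏_{p ≤ z} (1 - 1 / p)`. -/
theorem result (k : ℕ) (hk : 1 ≤ k) (μ : Fin k → Measure ℝ) [∀ i, IsProbabilityMeasure (μ i)] (B : ℝ)
    (hμ : ∀ i, ∀ᵐ α ∂(μ i), |α| ≤ B) (C σ : ℝ) (hσ : 0 < σ)
    (hdec : ∀ i, ∀ ξ : ℝ, 1 ≤ |ξ| → ‖charFun (μ i) ξ‖ ≤ C * |ξ| ^ (-σ))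
    (J : Type) (t : J → ℝ) (s : J → Fin k → ℝ) (ht : ∀ j, 2 ≤ t j) (hs : ∀ j i, |s j i| ≤ B * t j)
    (hsum : ∃ W : ℕ, Summable fun j => 1 / Real.log (t j) ^ W)
    (T : ℕ) (m : J → ℕ) (hm : ∀ j, (m j : ℝ) ≤ Real.log (t j) ^ T) (𝒩 : (j : J) → Fin (m j) → Set ℕ) :
    ∀ᵐ θ ∂(Measure.pi μ), ∀ (A K B' : ℕ) (ε : ℝ), 0 < ε → ∃ E₀ : ℕ, ∀ E : ℕ, E₀ ≤ E →
      {j | ¬ ∀ a : Fin k → ℤ, (∀ i, |(a i : ℝ) - (t j * θ i + s j i)| ≤ Real.log (t j) ^ A) →
        Holds ε K B' ⌈t j⌉₊ ⌊Real.log (⌈t j⌉₊ : ℝ) ^ E⌋₊ (𝒩 j) a}.Finite := by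
  classical
  obtain ⟨W, hW⟩ := hsum
  obtain ⟨p, hp⟩ := exists_nat_ge (1 / σ)
  obtain ⟨B₁, hB₁⟩ := exists_nat_ge (2 * (|B| + 1) + 16)
  have hpσ : 1 ≤ ((p + 1 : ℕ) : ℝ) * σ := by
    rw [div_le_iff₀ hσ] at hp
    push_cast
    nlinarith
  choose E0 hE0 using fun A i : ℕ => fam_win k (p + 1) (max B₁ i) 1 0 T (W + (A + 1) * k + 1) i hk (1 / ((i : ℝ) + 1)) (by positivity)
  have h := Pool.Agent.V11290.FD.abs_pi' (|B| + 1) C σ (by positivity) hσ μ hdec
    (fun i => by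
      filter_upwards [hμ i] with α hα
      linarith [le_abs_self B]) t s ht W hW (fun j i => (hs j i).trans (by nlinarith [ht j, le_abs_self B])) (p + 1) (by omega) hpσ B₁ hB₁
    (fun A e j a => E0 A (Nat.unpair e).1 ≤ (Nat.unpair e).2 → Holds (1 / (((Nat.unpair e).1 : ℝ) + 1)) (Nat.unpair e).1 (Nat.unpair e).1 ⌈t j⌉₊
      ⌊Real.log (⌈t j⌉₊ : ℝ) ^ (Nat.unpair e).2⌋₊ (𝒩 j) a) (by
    intro A e
    obtain ⟨i, hi⟩ : ∃ i, i = (Nat.unpair e).1 := ⟨_, rfl⟩
    obtain ⟨E, hE⟩ : ∃ E, E = (Nat.unpair e).2 := ⟨_, rfl⟩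
    rw [← hi, ← hE]
    by_cases hEE : E0 A i ≤ E
    swap
    · refine ⟨0, fun j _ x v _ _ 𝒮 _ hbad => ?_⟩
      have h𝒮 : 𝒮 = ∅ := by
        rw [eq_empty_iff_forall_notMem]
        intro q hq
        exact hbad q hq fun h => absurd h hEE
      rw [h𝒮, card_empty, Nat.cast_zero]
      apply div_nonneg (prod_nonneg fun _ _ => Nat.cast_nonneg _)
      exact pow_nonneg (Real.log_natCast_nonneg _) _
    obtain ⟨N₀, h0⟩ := hE0 A i E hEE
    refine ⟨max N₀ 3, fun j hj x v hv hEn 𝒮 h𝒮 hbad => ?_⟩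
    have hN1 : t j ≤ (⌈t j⌉₊ : ℝ) := Nat.le_ceil _
    have hN : N₀ ≤ ⌈t j⌉₊ := by
      have : (N₀ : ℝ) ≤ (⌈t j⌉₊ : ℝ) := ((le_max_left _ _).trans hj).trans hN1
      exact_mod_cast this
    have h3 : (3 : ℝ) ≤ (⌈t j⌉₊ : ℝ) := ((le_max_right _ _).trans hj).trans hN1
    have hL : 1 ≤ Real.log (⌈t j⌉₊ : ℝ) := by
      rw [Real.le_log_iff_exp_le (by linarith)]
      linarith [Real.exp_one_lt_d9]
    have hτ : (Fintype.card (Fin (m j)) : ℝ) ≤ Real.log (⌈t j⌉₊ : ℝ) ^ T := by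
      rw [Fintype.card_fin]
      refine (hm j).trans (pow_le_pow_left₀ ?_ (Real.log_le_log (by linarith [ht j]) hN1) T)
      exact (Real.log_pos (by linarith [ht j])).le
    refine h0 ⌈t j⌉₊ hN (Fin (m j)) hτ (fun l => (Ioc 0 (max B₁ i * ⌈t j⌉₊)).filter (· ∈ 𝒩 j l)) (fun l => filter_subset _ _)
      x v (fun a n hn => (hv a n hn).trans ?_) (fun a => by rw [pow_one]; exact hEn a) 𝒮 h𝒮 (fun q hq hG => ?_)
    · apply mul_le_mul_of_nonneg_right _ (by positivity)
      exact_mod_cast le_max_left _ _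
    · exact hbad q hq fun _ => holds_mono _ _ i i (max B₁ i) i _ _ hL le_rfl le_rfl (le_max_right _ _) _ _
        (holds_of _ _ _ _ _ _ _ hG))
  filter_upwards [h] with θ hθ A K B' ε hε
  obtain ⟨i, hi⟩ := exists_nat_ge (max (max (K : ℝ) B') (1 / ε))
  have i1 : K ≤ i := by exact_mod_cast ((le_max_left _ _).trans (le_max_left _ _)).trans hi
  have i2 : B' ≤ i := by exact_mod_cast ((le_max_right _ _).trans (le_max_left _ _)).trans hi
  have i4 : 1 / ε ≤ i := (le_max_right _ _).trans hi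
  have hε' : 1 / ((i : ℝ) + 1) ≤ ε := by
    rw [div_le_iff₀ hε] at i4
    rw [div_le_iff₀ (by positivity)]
    nlinarith
  refine ⟨E0 A i, fun E hE => ?_⟩
  have hsmall := Pool.Agent.V11290.FD.small_fin t ht W hW 3
  refine ((hθ A (Nat.pair i E)).union hsmall).subset ?_
  intro j hj
  rw [Set.mem_ofPred_eq] at hj
  by_cases h3 : t j < 3
  · right
    exact h3
  left
  rw [Set.mem_ofPred_eq]
  intro hall
  apply hj
  intro a ha
  have hL : 1 ≤ Real.log (⌈t j⌉₊ : ℝ) := by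
    have h4 : (3 : ℝ) ≤ (⌈t j⌉₊ : ℝ) := (not_lt.1 h3).trans (Nat.le_ceil _)
    rw [Real.le_log_iff_exp_le (by linarith)]
    linarith [Real.exp_one_lt_d9]
  have h5 := hall a ha
  rw [Nat.unpair_pair] at h5
  exact holds_mono _ _ i K i B' _ _ hL hε' i1 i2 _ _ (h5 hE)

end Pool.Agent.Results.MP_e87c7d_nt.FourierDecay
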