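import Pool.Agent.V11251.DS.Fam
import Pool.Agent.V11251.DS.HLdef

/-!
# The asymptotic formula of Hardy and Littlewood for prime tuples whose shifts have rearranged digits

The analytic input (the law of the permuted digits, the second moment of the error for one shift, the deterministic part)
is in the starting files `Pool.Agent.H373R2.T7`, `Pool.Agent.W93`, `Pool.Agent.TH890`, `Pool.Agent.TH872`.
-/

set_option autoImplicit false

namespace Pool.Agent.Results.MP_e87c7d_nt.RearrangedShifts

open Finset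

/-- `d` is a word of `k` digits in base `b`, in which no digit stands at more than `(1 - η) k` places. -/
def Mixed (b k : ℕ) (η : ℝ) (d : Fin k → ℕ) : Prop :=
  (∀ i, d i < b) ∧ ∀ a, ((univ.filter fun i => d i = a).card : ℝ) ≤ (1 - η) * k

/-- The integer whose `k` digits in base `b` are the digits `d` rearranged by the permutation `σ`: the digit number `j`
(the coefficient of `b ^ j`) is `d (σ j)`. -/
def rearranged (b : ℕ) {k : ℕ} (d : Fin k → ℕ) (σ : Equiv.Perm (Fin k)) : ℕ := ∑ j : Fin k, d (σ j) * b ^ (j : ℕ)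

/-- The number of the residues `r` mod `p` for which `p` divides `r (r + a 1) ... (r + a s)`. -/
def nu {s : ℕ} (a : Fin s → ℕ) (p : ℕ) : ℕ := ((range p).filter (fun r => p ∣ r ∨ ∃ i, p ∣ r + a i)).card

/-- The partial product of the singular series of the tuple `0, a 1, ..., a s` over the primes `p ≤ z`. -/
noncomputable def sing {s : ℕ} (a : Fin s → ℕ) (z : ℕ) : ℝ :=
  ∏ p ∈ (Icc 1 z).filter Nat.Prime, (1 - (nu a p : ℝ) / p) / (1 - 1 / (p : ℝ)) ^ (s + 1)

/-- The primes `p ≤ N` for which all `p + a i` are primes. -/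
def tuples {s : ℕ} (a : Fin s → ℕ) (N : ℕ) : Finset ℕ := (Icc 1 N).filter (fun p : ℕ => p.Prime ∧ ∀ i, (p + a i).Prime)

/-- The formula of Hardy and Littlewood for the tuple `p, p + a 1, ..., p + a s` and the primes `p ≤ N`: the
singular series converges, its sum `S` predicts the weighted number of prime tuples with an error of
at most `N / log ^ U N`, and, if the tuple is admissible, `S` is positive and `S N / log ^ (s + 1) N`
predicts the number of prime tuples with a relative error of at most `ε`. -/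
def Holds {s : ℕ} (ε : ℝ) (U N : ℕ) (a : Fin s → ℕ) : Prop :=
  ∃ S : ℝ, Filter.Tendsto (sing a) Filter.atTop (nhds S) ∧
    |∑ p ∈ tuples a N, Real.log p * ∏ i, Real.log (p + a i) - S * N| ≤ (N : ℝ) / Real.log N ^ U ∧
    ((∀ p : ℕ, p.Prime → ∃ r : ℕ, ¬ p ∣ r ∧ ∀ i, ¬ p ∣ r + a i) → 0 < S ∧
      |((tuples a N).card : ℝ) - S * (N / Real.log N ^ (s + 1))| ≤ ε * (S * (N / Real.log N ^ (s + 1))))

open Classical in
/-- Let `s ≥ 1`, bases `b i ≥ 2`, `η > 0`, `κ i ≥ 1`, `B`, `U` and `ε > 0` be fixed (`i < s`). Let `N` be large, let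
`k i` be lengths with `N / B ≤ b i ^ k i ≤ B N`, let `0 ≤ c i ≤ B N` be integers, and let `d i` be ANY word of `k i`
digits in base `b i`, in which no digit stands at more than `(1 - η) k i` places. Rearrange the digits of each `d i` by a
permutation `σ i`. Then, for all the vectors `(σ 1, ..., σ s)` of permutations with the exception of a proportion of at
most `1 / log ^ U N` of them, the formula of Hardy and Littlewood for the primes `p ≤ N` holds for the tuple
`p, p + a 1, ..., p + a s`, where `a i = c i + κ i v i` and `v i` is the integer with the rearranged digits. -/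
theorem result (s : ℕ) (hs : 1 ≤ s) (b : Fin s → ℕ) (hb : ∀ i, 2 ≤ b i) (η : ℝ) (hη : 0 < η)
    (κ : Fin s → ℕ) (hκ : ∀ i, 1 ≤ κ i) (B U : ℕ) (ε : ℝ) (hε : 0 < ε) :
    ∃ N₀ : ℕ, ∀ N, N₀ ≤ N → ∀ k : Fin s → ℕ, (∀ i, N ≤ B * b i ^ k i ∧ b i ^ k i ≤ B * N) →
      ∀ d : ∀ i, Fin (k i) → ℕ, (∀ i, Mixed (b i) (k i) η (d i)) → ∀ c : Fin s → ℕ, (∀ i, c i ≤ B * N) →
        ((univ.filter fun σ : ∀ i, Equiv.Perm (Fin (k i)) =>
          ¬ Holds ε U N (fun i => c i + κ i * rearranged (b i) (d i) (σ i))).card : ℝ) ≤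
        ((∏ i, (k i).factorial : ℕ) : ℝ) / Real.log N ^ U := by
  obtain ⟨N₀, h⟩ := Pool.Agent.V11251.DS.perm_tuples s hs b hb η hη κ hκ B U ε hε
  refine ⟨N₀, fun N hN k hk d hd c hc => ?_⟩
  have h1 := h N hN k (fun i => ⟨(hk i).2, (hk i).1⟩) d (fun i => ⟨(hd i).1, (hd i).2⟩) c hc
  rw [Nat.cast_prod]
  refine le_trans ?_ h1
  apply Nat.cast_le.2 (card_le_card _)
  intro v hv
  rw [mem_filter] at hv ⊢
  exact ⟨hv.1, fun hcon => hv.2 (Pool.Agent.V11251.DS.holds_of_HLs ε U N _ hcon)⟩

end Pool.Agent.Results.MP_e87c7d_nt.RearrangedShifts
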