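import Pool.Agent.Y816.PD.UniS2

/-!
# Tuples with restricted digits near any base point, with composite numbers at given places

Let `H` be an admissible set of `k ≥ 1` natural numbers, for instance the `a_i` of the question, and let
`E` be any finite set of natural numbers disjoint from `H`, for instance the set of all other numbers
between the smallest and the largest element of `H`.  Let `b ≥ 2` be a base and let the digits of a
number `j < b^K` be restricted: the `i`-th digit belongs to a set `A i`, where the sets `A i` are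
arbitrary, depend on the place `i < K`, and have the only property that the number `∏ |A i|` of these
integers `j` is at least `e^{-cK} b^K`, where the constant `c > 0` depends on `H` and not on `b`.  (For
example one digit may be excluded at every place if `b` is large; or a positive proportion of the digits
may be fixed.)  Let `N` be an arbitrary base point up to a fixed power of `b^K`.  We show that the
conjectural order of magnitude `∏ |A i| / K^k` is an upper bound for the number of these `j` such that
`N + j + a` is prime for all `a ∈ H`, and a lower bound for the number of the `j` such that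
`N + j + a` has at most `r` prime factors for all `a ∈ H`, all larger than `b^{K/r}`, and such that
`N + j + e` is composite for all `e ∈ E`.

The method is a Brun–Hooley sieve with weights, whose level of distribution is obtained from the Fourier
transform of the set of the integers with restricted digits at rationals (large sieve in blocks of
digits), see `Pool/Agent/Y816/PD`.
-/

set_option autoImplicit false

namespace Pool.Agent.Results.MP_e87c7d_nt.RestrictedDigits

open Finset Filter

/-- `H` does not occupy all residue classes modulo any prime. -/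
def Admissible (H : Finset ℕ) : Prop := ∀ p : ℕ, p.Prime → ∃ m : ℕ, ∀ h ∈ H, ¬ p ∣ m + h

open Classical in
/-- The number of the `j < b ^ K` in `S` whose `i`-th digit in base `b` belongs to `A i` for all
`i < K`. -/
noncomputable def count (b K : ℕ) (A : ℕ → Finset ℕ) (S : Set ℕ) : ℕ :=
  ((range (b ^ K)).filter (fun j => (∀ i < K, j / b ^ i % b ∈ A i) ∧ j ∈ S)).card

/-- The number of choices of the digits. -/
noncomputable def choices (K : ℕ) (A : ℕ → Finset ℕ) : ℝ := ∏ i ∈ range K, ((A i).card : ℝ)

/-- `m` has at most `r` prime factors, counted with multiplicity, and all of them are larger than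
`z ^ (1 / r)`. -/
def AlmostPrime (r z m : ℕ) : Prop :=
  (∀ p : ℕ, p.Prime → p ∣ m → z < p ^ r) ∧ m.primeFactorsList.length ≤ r

/-- **Tuples with restricted digits near any base point.** -/
theorem result (H : Finset ℕ) (hH : Admissible H) (k : ℕ) (hk : H.card = k) (hk1 : 1 ≤ k) (D : ℕ)
    (E : Finset ℕ) (hE : Disjoint E H) :
    ∃ c : ℝ, 0 < c ∧ ∃ r₀ : ℕ, 2 ≤ r₀ ∧ ∀ r : ℕ, r₀ ≤ r → ∀ b : ℕ, 2 ≤ b →
      ∃ κ C : ℝ, 0 < κ ∧ 0 < C ∧
      ∀ᶠ K : ℕ in atTop, ∀ N : ℕ, N ≤ b ^ (D * K) → ∀ A : ℕ → Finset ℕ, (∀ i < K, A i ⊆ range b) →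
        (b : ℝ) ^ K ≤ Real.exp (c * K) * choices K A →
        ((∃ d ∈ A 0, ∀ h ∈ H, (N + d + h).Coprime b) → (∃ d ∈ A (K - 1), d ≠ 0) →
          κ * choices K A / (K : ℝ) ^ k ≤ count b K A {j | b ^ (K - 1) ≤ j ∧
            (∀ h ∈ H, AlmostPrime r (b ^ K) (N + j + h)) ∧ ∀ e ∈ E, ¬ (N + j + e).Prime}) ∧
        (count b K A {j | ∀ h ∈ H, (N + j + h).Prime} : ℝ) ≤ C * choices K A / (K : ℝ) ^ k := by
  classical
  -- the places of `E` for which the enlarged set is not admissible
  have hne : ∀ e ∈ E, ¬ Admissible (insert e H) →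
      ∃ p : ℕ, p.Prime ∧ ∀ m : ℕ, ∃ h ∈ insert e H, p ∣ m + h := by
    intro e _ he
    unfold Admissible at he
    push Not at he
    exact he
  choose! q hq1 hq2 using hne
  obtain ⟨P, hP⟩ : ∃ P : ℕ, ∀ e ∈ E, q e ≤ P := ⟨E.sup q, fun e he => le_sup (f := q) he⟩
  obtain ⟨c, hc, r₀, hr₀, h⟩ := Pool.Agent.Y816.PD.uni_gap H hH k hk hk1 D
    (E.filter (fun e => Admissible (insert e H)))
    (fun e he => ⟨Finset.disjoint_left.1 hE (mem_filter.1 he).1, (mem_filter.1 he).2⟩)
  refine ⟨c, hc, r₀, hr₀, fun r hr b hb => ?_⟩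
  obtain ⟨κ, C, hκ, hC, h1⟩ := h r hr b hb
  refine ⟨κ, C, hκ, hC, ?_⟩
  filter_upwards [h1, eventually_ge_atTop (P ^ r + P + 2)] with K hK hKP N hN A hA hprod
  obtain ⟨h2, h3⟩ := hK N hN A hA hprod
  have hbK : K < b ^ K := Nat.lt_pow_self (by omega)
  have hbK1 : K - 1 < b ^ (K - 1) := Nat.lt_pow_self (by omega)
  refine ⟨fun hd htop => (h2 hd htop).trans (Nat.cast_le.2 ?_), le_trans (Nat.cast_le.2 ?_) h3⟩
  · unfold count Pool.Agent.Y816.PD.ND
    refine card_le_card fun j hj => ?_
    simp only [mem_filter, Set.mem_ofPred_eq] at hj ⊢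
    refine ⟨hj.1, hj.2.1, ?_⟩
    obtain ⟨⟨hjK, hj1, hj2⟩, hj3⟩ := hj.2.2
    refine ⟨hj1, hj2, fun e he => ?_⟩
    by_cases hadm : Admissible (insert e H)
    · exact hj3 e (mem_filter.2 ⟨he, hadm⟩)
    · intro hpr
      obtain ⟨h', hh', hdvd⟩ := hq2 e he hadm (N + j)
      have hqP := hP e he
      rw [mem_insert] at hh'
      rcases hh' with rfl | hh'
      · have h5 := (Nat.prime_dvd_prime_iff_eq (hq1 _ he hadm) hpr).1 hdvd
        omega
      · have h5 := (hj2 h' hh').1 (q e) (hq1 e he hadm) hdvd
        have h6 : q e ^ r ≤ P ^ r := Nat.pow_le_pow_left hqP r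
        omega
  · unfold count Pool.Agent.Y816.PD.ND
    refine card_le_card fun j hj => ?_
    simp only [mem_filter, Set.mem_ofPred_eq] at hj ⊢
    refine ⟨hj.1, hj.2.1, ?_⟩
    intro h' hh' p hp hdvd
    have h5 := (Nat.prime_dvd_prime_iff_eq hp (hj.2.2 h' hh')).1 hdvd
    have h6 : p < p ^ r := lt_self_pow₀ hp.one_lt (by omega)
    omega

end Pool.Agent.Results.MP_e87c7d_nt.RestrictedDigits
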