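import Pool.Agent.V1137.Pm2

/-!
For most admissible tuples `(0, a_1, ..., a_r)` the expected number of prime tuples
`n, n + a_1, ..., n + a_r`, up to a constant factor, has `n` in any given set of primes which meets
all short clusters of primes.
-/

set_option autoImplicit false

open Finset Filter Topology

namespace Pool.Agent.Results.MP_e87c7d_nt.UnavoidableMembers

/-- `P` meets all short clusters of primes: there are `M` and `ε > 0` such that, for all large `u`,
every interval `[u, v]` with `v ≤ u + ε log u` which contains at least `M` primes contains a prime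
which belongs to `P`. -/
def MeetsClusters (P : Set ℕ) : Prop := ∃ (M : ℕ) (ε : ℝ), 0 < ε ∧ ∃ u₀ : ℕ, ∀ u v : ℕ, u₀ ≤ u →
  (v : ℝ) ≤ u + ε * Real.log u → M ≤ ((Icc u v).filter Nat.Prime).card →
  ∃ p ∈ P, u ≤ p ∧ p ≤ v ∧ p.Prime

/-- There is no local obstruction for `0, a_1, ..., a_r`: for every prime `l` there is an integer `n`
such that `l` divides none of the numbers `n, n + a_1, ..., n + a_r`. -/
def Admissible {r : ℕ} (a : Fin r → ℕ) : Prop :=
  ∀ l : ℕ, l.Prime → ∃ n : ℤ, ¬ (l : ℤ) ∣ n ∧ ∀ j, ¬ (l : ℤ) ∣ n + a j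

open Classical in
/-- The primes `n ≤ x` in `P` for which all `n + a_j` are prime. -/
noncomputable def tuples {r : ℕ} (P : Set ℕ) (a : Fin r → ℕ) (x : ℕ) : Finset ℕ :=
  (Icc 1 x).filter (fun n => n.Prime ∧ n ∈ P ∧ ∀ j, (n + a j).Prime)

open Classical in
/-- The admissible vectors with `1 ≤ a_j ≤ K x` and fewer than `c x / (log x) ^ (r + 1)` such `n`. -/
noncomputable def exceptions (r : ℕ) (P : Set ℕ) (c : ℝ) (K x : ℕ) : Finset (Fin r → ℕ) :=
  (Fintype.piFinset (fun _ : Fin r => Icc 1 (K * x))).filter (fun a => Admissible a ∧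
    ((tuples P a x).card : ℝ) < c * (x / Real.log x ^ (r + 1)))

open Pool.Agent.V1137.Unav in
/-- **Prime tuples with a member in a set which meets all short clusters of primes.** Let `P` be a
set which, for some `M` and `ε > 0`, contains a prime from every interval `[u, v]`,
`v ≤ u + ε log u`, `u` large, with at least `M` primes. For all `r`, `K` and `κ > 0` there is `c > 0`
such that for all large `x` and all vectors `(a_1, ..., a_r)` of integers `1 ≤ a_j ≤ K x` without
local obstruction, with at most `κ x ^ r` exceptions, there are at least `c x / (log x) ^ (r + 1)`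
primes `n ≤ x` in `P` for which all `n + a_j` are prime. -/
theorem result (r : ℕ) (P : Set ℕ) (hP : MeetsClusters P) (K : ℕ) (κ : ℝ) (hκ : 0 < κ) :
    ∃ c : ℝ, 0 < c ∧ ∀ᶠ x : ℕ in atTop,
      ((exceptions r P c K x).card : ℝ) ≤ κ * (x : ℝ) ^ r := by
  classical
  obtain ⟨M, ε, hε, hP⟩ := hP
  obtain ⟨c, hc, x₀, h⟩ := sys_pm (fun _ : Fin r => 1) (fun _ => Or.inl rfl)
    (fun _ => Polynomial.X) (fun _ => by simp) (fun _ => by simp) P (PS_most M ε hε P hP) K κ hκ
  refine ⟨c, hc, ?_⟩
  rw [eventually_atTop]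
  refine ⟨x₀, fun x hx => le_trans ?_ ((h x hx).trans (le_of_eq ?_))⟩
  · apply Nat.cast_le.2
    apply card_le_card
    intro a ha
    unfold exceptions at ha
    rw [mem_filter, Fintype.mem_piFinset] at ha
    rw [mem_filter, Fintype.mem_piFinset]
    refine ⟨fun j => ?_, ?_, ?_⟩
    · rw [Polynomial.natDegree_X, pow_one]
      exact ha.1 j
    · intro l hl
      obtain ⟨n, hn1, hn2⟩ := ha.2.1 l hl
      refine ⟨n, hn1, fun j hd => hn2 j ?_⟩
      have e1 : (a j : ℤ) + 1 * (Polynomial.X : Polynomial ℤ).eval n = n + a j := by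
        rw [Polynomial.eval_X]
        ring
      rwa [e1] at hd
    · refine lt_of_le_of_lt ?_ ha.2.2
      apply Nat.cast_le.2
      apply card_le_card
      intro p hp
      unfold Arg at hp
      unfold tuples
      rw [mem_filter] at hp ⊢
      refine ⟨hp.1, hp.2.1, hp.2.2.1, fun i => ?_⟩
      have h1 := hp.2.2.2 i
      rw [Polynomial.eval_X] at h1
      have e1 : ((a i : ℤ) + 1 * p).toNat = p + a i := by omega
      rwa [e1] at h1
  · rw [prod_congr rfl fun j _ => by rw [Polynomial.natDegree_X, pow_one]]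
    rw [prod_const, card_univ, Fintype.card_fin]

end Pool.Agent.Results.MP_e87c7d_nt.UnavoidableMembers
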